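import Pool.Agent.H992.SF.GDefs

/-!
# Mixing in some of the variables (project SG, MP_a28cf0_nt)
-/

set_option autoImplicit false
open MeasureTheory Filter Topology Complex ProbabilityTheory
open scoped ContDiff ENNReal

namespace Pool.Agent.H703.SG

open Pool.Agent.N661.BR (MW lin shift IsStationary IsErgodic IsRandomWave)
open Pool.Agent.H992.LB (eγ eγ_norm eγ_meas Q S S_tendsto cc ee ee_norm ee_meas ee_mean ee_corr pt
  val val_lin val_shift)
open Pool.Agent.H992.SF

namespace MIX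

/-- the Hilbert space argument -/
lemma hil {E : Type*} [NormedAddCommGroup E] [InnerProductSpace ℂ E] (G : E) (V : ℝ → E) (δ : ℂ)
    (D : ℝ → ℝ) (h1 : ∀ x, inner ℂ G (V x) = δ)
    (h2 : ∀ x y, inner ℂ (V y) (V x) = ((D (x - y) : ℝ) : ℂ))
    (h3 : ∀ s : ℝ, s ≠ 0 → Tendsto (fun R : ℝ => D (R * s)) atTop (𝓝 0)) : δ = 0 := by
  have key : ∀ n : ℕ, (n : ℝ) ^ 2 * ‖δ‖ ^ 2 ≤ ‖G‖ ^ 2 * (n * D 0) := by
    intro n
    have hB : ∀ R : ℝ, ‖∑ l ∈ Finset.range n, V (R * l)‖ ^ 2 =
        ∑ l ∈ Finset.range n, ∑ l' ∈ Finset.range n, D (R * ((l' : ℝ) - l)) := by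
      intro R
      have e1 : ((‖∑ l ∈ Finset.range n, V (R * l)‖ ^ 2 : ℝ) : ℂ) =
          ∑ l ∈ Finset.range n, ∑ l' ∈ Finset.range n, ((D (R * ((l' : ℝ) - l)) : ℝ) : ℂ) := by
        rw [Complex.ofReal_pow]
        have e0 := inner_self_eq_norm_sq_to_K (𝕜 := ℂ) (∑ l ∈ Finset.range n, V (R * l))
        refine e0.symm.trans ?_
        rw [sum_inner]
        refine Finset.sum_congr rfl fun l _ => ?_
        rw [inner_sum]
        refine Finset.sum_congr rfl fun l' _ => ?_
        rw [h2, mul_sub]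
      exact_mod_cast e1
    have hA : ∀ R : ℝ, (n : ℝ) ^ 2 * ‖δ‖ ^ 2 ≤ ‖G‖ ^ 2 *
        ∑ l ∈ Finset.range n, ∑ l' ∈ Finset.range n, D (R * ((l' : ℝ) - l)) := by
      intro R
      have e1 : inner ℂ G (∑ l ∈ Finset.range n, V (R * l)) = (n : ℂ) * δ := by
        rw [inner_sum]
        simp only [h1]
        rw [Finset.sum_const, Finset.card_range, nsmul_eq_mul]
      have e2 := norm_inner_le_norm (𝕜 := ℂ) G (∑ l ∈ Finset.range n, V (R * l))
      rw [e1, norm_mul, Complex.norm_natCast] at e2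
      rw [← hB R, ← mul_pow, ← mul_pow]
      exact pow_le_pow_left₀ (by positivity) e2 2
    have hT : Tendsto (fun R : ℝ => ‖G‖ ^ 2 *
        ∑ l ∈ Finset.range n, ∑ l' ∈ Finset.range n, D (R * ((l' : ℝ) - l))) atTop
        (𝓝 (‖G‖ ^ 2 * ∑ l ∈ Finset.range n, ∑ l' ∈ Finset.range n,
          if l' = l then D 0 else 0)) := by
      refine Tendsto.const_mul _ (tendsto_finsetSum _ fun l _ => tendsto_finsetSum _ fun l' _ => ?_)
      by_cases h : l' = l
      · subst h
        simp only [sub_self, mul_zero, if_true]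
        exact tendsto_const_nhds
      · rw [if_neg h]
        exact h3 _ (sub_ne_zero.2 (by exact_mod_cast h))
    have h4 := ge_of_tendsto' hT hA
    refine h4.trans (le_of_eq ?_)
    congr 1
    have e3 : ∀ l ∈ Finset.range n,
        (∑ l' ∈ Finset.range n, if l' = l then D 0 else 0) = D 0 := by
      intro l hl
      rw [Finset.sum_ite_eq', if_pos hl]
    rw [Finset.sum_congr rfl e3, Finset.sum_const, Finset.card_range, nsmul_eq_mul]
  by_contra hδ
  have hp : 0 < ‖δ‖ ^ 2 := by positivity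
  obtain ⟨n, hn⟩ := exists_nat_gt (‖G‖ ^ 2 * D 0 / ‖δ‖ ^ 2)
  rw [div_lt_iff₀ hp] at hn
  have h5 := key (n + 1)
  push_cast at h5
  have h6 : (0 : ℝ) < (n : ℝ) + 1 := by positivity
  have h7 : ((n : ℝ) + 1) * (((n : ℝ) + 1) * ‖δ‖ ^ 2) ≤ ((n : ℝ) + 1) * (‖G‖ ^ 2 * D 0) := by
    nlinarith [h5]
  have h8 := le_of_mul_le_mul_left h7 h6
  nlinarith

/-- the translated character of one variable -/
noncomputable def Eo (τ : ℂ →₀ ℝ) (x : ℂ) (f : MW) : ℂ := ee (pt τ) (fun j => τ (pt τ j)) x f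

lemma eγ_shift (τ : ℂ →₀ ℝ) (x : ℂ) (f : MW) : eγ (τ.mapDomain (· + x)) f = Eo τ x f := by
  unfold eγ Eo ee
  rw [val_shift]

lemma eγ_eq (τ : ℂ →₀ ℝ) (f : MW) : eγ τ f = Eo τ 0 f := by
  unfold eγ Eo ee
  rw [val_lin]
  simp only [add_zero]

/-- the moving factor -/
noncomputable def φ (c : ℝ) (τ : ℂ →₀ ℝ) (x : ℝ) (f : MW) : ℂ :=
  if c = 0 then 1 else Eo τ ((c : ℂ) * (x : ℂ)) f

/-- the fixed factor -/
noncomputable def ψ (c : ℝ) (τ : ℂ →₀ ℝ) (f : MW) : ℂ := if c = 0 then eγ τ f else 1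

lemma φ_norm (c : ℝ) (τ : ℂ →₀ ℝ) (x : ℝ) (f : MW) : ‖φ c τ x f‖ = 1 := by
  unfold φ
  split_ifs
  · exact norm_one
  · exact ee_norm _ _ _ _

lemma ψ_norm (c : ℝ) (τ : ℂ →₀ ℝ) (f : MW) : ‖ψ c τ f‖ = 1 := by
  unfold ψ
  split_ifs
  · exact eγ_norm _ _
  · exact norm_one

lemma φ_meas (c : ℝ) (τ : ℂ →₀ ℝ) (x : ℝ) : Measurable (φ c τ x) := by
  unfold φ
  split_ifs
  · exact measurable_const
  · exact ee_meas _ _ _

lemma ψ_meas (c : ℝ) (τ : ℂ →₀ ℝ) : Measurable (ψ c τ) := by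
  unfold ψ
  split_ifs
  · exact eγ_meas _
  · exact measurable_const

lemma φψ (c : ℝ) (τ : ℂ →₀ ℝ) (x : ℝ) (f : MW) :
    eγ (τ.mapDomain (· + (c : ℂ) * (x : ℂ))) f = ψ c τ f * φ c τ x f := by
  unfold ψ φ
  by_cases h : c = 0
  · rw [if_pos h, if_pos h, mul_one, h]
    have e : (fun z : ℂ => z + ((0 : ℝ) : ℂ) * (x : ℂ)) = id := by
      funext z
      simp
    rw [e, Finsupp.mapDomain_id]
  · rw [if_neg h, if_neg h, one_mul, eγ_shift]

/-- the mean of the moving factor -/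
noncomputable def aa (c : ℝ) (τ : ℂ →₀ ℝ) : ℝ :=
  if c = 0 then 1 else cc (pt τ) (fun j => τ (pt τ j))

/-- the correlation of the moving factors -/
noncomputable def KK (c : ℝ) (τ : ℂ →₀ ℝ) (s : ℝ) : ℝ :=
  if c = 0 then 1 else Real.exp (-(max (2 * Q (pt τ) (fun j => τ (pt τ j)) -
    2 * S (pt τ) (fun j => τ (pt τ j)) ((c : ℂ) * (s : ℂ))) 0) / 2)

lemma φ_mean {γ : Measure MW} [IsProbabilityMeasure γ] (hγ : IsRandomWave γ) (c : ℝ) (τ : ℂ →₀ ℝ)
    (x : ℝ) : ∫ f, φ c τ x f ∂γ = (aa c τ : ℂ) := by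
  unfold φ aa
  split_ifs
  · simp
  · exact ee_mean hγ _ _ _

lemma φ_corr {γ : Measure MW} [IsProbabilityMeasure γ] (hγ : IsRandomWave γ) (c : ℝ) (τ : ℂ →₀ ℝ)
    (x y : ℝ) : ∫ f, φ c τ x f * (starRingEnd ℂ) (φ c τ y f) ∂γ = (KK c τ (x - y) : ℂ) := by
  unfold φ KK
  split_ifs
  · simp
  · have h := ee_corr hγ (pt τ) (fun j => τ (pt τ j)) ((c : ℂ) * (x : ℂ)) ((c : ℂ) * (y : ℂ))
    have e : (c : ℂ) * (x : ℂ) - (c : ℂ) * (y : ℂ) = (c : ℂ) * ((x - y : ℝ) : ℂ) := by
      push_cast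
      ring
    rw [e] at h
    exact h

lemma KK_lim (c : ℝ) (τ : ℂ →₀ ℝ) (s : ℝ) (hs : s ≠ 0) :
    Tendsto (fun R : ℝ => KK c τ (R * s)) atTop (𝓝 (aa c τ ^ 2)) := by
  unfold KK aa
  by_cases hc : c = 0
  · simp only [if_pos hc, one_pow]
    exact tendsto_const_nhds
  · simp only [if_neg hc]
    set w := pt τ with hw
    set t : Fin τ.support.card → ℝ := fun j => τ (pt τ j) with ht
    have h1 : Tendsto (fun R : ℝ => (c : ℂ) * ((R * s : ℝ) : ℂ)) atTop (cocompact ℂ) := by
      rw [← Metric.cobounded_eq_cocompact, ← tendsto_norm_atTop_iff_cobounded]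
      have e : ∀ R : ℝ, ‖(c : ℂ) * ((R * s : ℝ) : ℂ)‖ = |R| * (|c| * |s|) := by
        intro R
        rw [norm_mul, Complex.norm_real, Complex.norm_real, Real.norm_eq_abs, Real.norm_eq_abs,
          abs_mul]
        ring
      simp only [e]
      exact tendsto_abs_atTop_atTop.atTop_mul_const (by positivity)
    have h2 := (S_tendsto w t).comp h1
    have h3 : Continuous fun s : ℝ => Real.exp (-(max (2 * Q w t - 2 * s) 0) / 2) := by fun_prop
    have h4 := (h3.tendsto 0).comp h2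
    have h5 : Real.exp (-(max (2 * Q w t - 2 * 0) 0) / 2) = cc w t ^ 2 := by
      unfold cc
      rw [← Real.exp_nat_mul]
      congr 1
      rcases le_total (Q w t) 0 with h | h
      · rw [max_eq_right h, max_eq_right (by linarith)]
        ring
      · rw [max_eq_left h, max_eq_left (by linarith)]
        push_cast
        ring
    rw [h5] at h4
    exact h4

end MIX

open MIX in
theorem mix : S_MIX := by
  intro γ hP hγ d c h hh τ hinv
  set μ := pr d γ with hμ
  have hμP : IsProbabilityMeasure μ := by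
    rw [hμ]
    unfold pr
    infer_instance
  set a : ℝ := ∏ i, aa (c i) (τ i) with ha
  set f : ℝ → (Fin d → MW) → ℂ := fun x F => ∏ i, φ (c i) (τ i) x (F i) with hf
  set r : (Fin d → MW) → ℂ := fun F => ∏ i, ψ (c i) (τ i) (F i) with hr
  set v : ℝ → (Fin d → MW) → ℂ := fun x F => f x F - (a : ℂ) with hv
  set g : (Fin d → MW) → ℂ := fun F => h F * (starRingEnd ℂ) (r F) with hg
  have fm : ∀ x, Measurable (f x) := fun x =>
    Finset.measurable_prod _ fun i _ => (φ_meas (c i) (τ i) x).comp (measurable_pi_apply i)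
  have rm : Measurable r :=
    Finset.measurable_prod _ fun i _ => (ψ_meas (c i) (τ i)).comp (measurable_pi_apply i)
  have fn : ∀ x F, ‖f x F‖ = 1 := by
    intro x F
    simp only [hf, norm_prod, φ_norm, Finset.prod_const_one]
  have rn : ∀ F, ‖r F‖ = 1 := by
    intro F
    simp only [hr, norm_prod, ψ_norm, Finset.prod_const_one]
  have gn : ∀ F, ‖g F‖ = ‖h F‖ := by
    intro F
    simp only [hg, norm_mul, RCLike.norm_conj, rn, mul_one]
  have hgm : AEStronglyMeasurable g μ := hh.aestronglyMeasurable.mul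
    (Complex.continuous_conj.measurable.comp rm).aestronglyMeasurable
  have hgL : MemLp g 2 μ := hh.of_le hgm (Eventually.of_forall fun F => (gn F).le)
  have hvL : ∀ x, MemLp (v x) 2 μ := by
    intro x
    refine MemLp.of_bound ((fm x).sub_const _).aestronglyMeasurable (1 + |a|)
      (Eventually.of_forall fun F => ?_)
    refine (norm_sub_le _ _).trans ?_
    rw [fn, Complex.norm_real, Real.norm_eq_abs]
  have hgi : Integrable (fun F => (starRingEnd ℂ) (g F)) μ :=
    Complex.conjLIE.toContinuousLinearEquiv.toContinuousLinearMap.integrable_comp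
      (hgL.integrable (by norm_num))
  have hgf : ∀ x, Integrable (fun F => f x F * (starRingEnd ℂ) (g F)) μ := by
    intro x
    refine hgi.mono ((fm x).aestronglyMeasurable.mul hgi.aestronglyMeasurable)
      (Eventually.of_forall fun F => ?_)
    rw [norm_mul, fn, one_mul]
  have e1 : ∀ x : ℝ, ∫ F, f x F * (starRingEnd ℂ) (g F) ∂μ =
      ∫ F, (starRingEnd ℂ) (h F) * eJ τ F ∂μ := by
    intro x
    rw [← hinv (x : ℂ)]
    refine integral_congr_ae (Eventually.of_forall fun F => ?_)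
    show f x F * (starRingEnd ℂ) (h F * (starRingEnd ℂ) (r F)) =
      (starRingEnd ℂ) (h F) * eJ (sh c (x : ℂ) τ) F
    have e2 : eJ (sh c (x : ℂ) τ) F = r F * f x F := by
      simp only [eJ, sh, hr, hf, ← Finset.prod_mul_distrib, φψ]
    rw [map_mul, Complex.conj_conj, e2]
    ring
  have e3 : ∫ F, (starRingEnd ℂ) (g F) ∂μ = ∫ F, (starRingEnd ℂ) (h F) *
      eJ (fun i => if c i = 0 then τ i else 0) F ∂μ := by
    refine integral_congr_ae (Eventually.of_forall fun F => ?_)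
    show (starRingEnd ℂ) (h F * (starRingEnd ℂ) (r F)) = (starRingEnd ℂ) (h F) *
      eJ (fun i => if c i = 0 then τ i else 0) F
    have e4 : eJ (fun i => if c i = 0 then τ i else 0) F = r F := by
      simp only [eJ, hr]
      refine Finset.prod_congr rfl fun i _ => ?_
      unfold ψ
      split_ifs
      · rfl
      · simp [eγ, val]
    rw [map_mul, Complex.conj_conj, e4]
  have e5 : (a : ℂ) = ∏ i, if c i = 0 then 1 else ∫ f, eγ (τ i) f ∂γ := by
    rw [ha, Complex.ofReal_prod]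
    refine Finset.prod_congr rfl fun i _ => ?_
    unfold aa
    split_ifs
    · exact Complex.ofReal_one
    · simp only [eγ_eq]
      exact (ee_mean hγ _ _ _).symm
  have fmean : ∀ x, ∫ F, f x F ∂μ = (a : ℂ) := by
    intro x
    have h1 := integral_fintype_prod_eq_prod (𝕜 := ℂ) (μ := fun _ : Fin d => γ)
      (fun i => φ (c i) (τ i) x)
    refine h1.trans ?_
    rw [ha, Complex.ofReal_prod]
    exact Finset.prod_congr rfl fun i _ => φ_mean hγ _ _ _
  have fcorr : ∀ x y, ∫ F, f x F * (starRingEnd ℂ) (f y F) ∂μ =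
      ((∏ i, KK (c i) (τ i) (x - y) : ℝ) : ℂ) := by
    intro x y
    have h1 := integral_fintype_prod_eq_prod (𝕜 := ℂ) (μ := fun _ : Fin d => γ)
      (fun i f => φ (c i) (τ i) x f * (starRingEnd ℂ) (φ (c i) (τ i) y f))
    rw [Complex.ofReal_prod]
    refine Eq.trans ?_ (h1.trans (Finset.prod_congr rfl fun i _ => φ_corr hγ _ _ _ _))
    refine integral_congr_ae (Eventually.of_forall fun F => ?_)
    simp only [hf, map_prod, Finset.prod_mul_distrib]
  have fi : ∀ x, Integrable (f x) μ := fun x =>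
    Integrable.of_bound (fm x).aestronglyMeasurable 1 (Eventually.of_forall fun F => (fn x F).le)
  have fci : ∀ x, Integrable (fun F => (starRingEnd ℂ) (f x F)) μ := fun x =>
    Complex.conjLIE.toContinuousLinearEquiv.toContinuousLinearMap.integrable_comp (fi x)
  have ffi : ∀ x y, Integrable (fun F => f x F * (starRingEnd ℂ) (f y F)) μ := by
    intro x y
    refine Integrable.of_bound ((fm x).aestronglyMeasurable.mul
      (fci y).aestronglyMeasurable) 1 (Eventually.of_forall fun F => ?_)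
    rw [norm_mul, RCLike.norm_conj, fn, fn, mul_one]
  have vcorr : ∀ x y, ∫ F, v x F * (starRingEnd ℂ) (v y F) ∂μ =
      ((∏ i, KK (c i) (τ i) (x - y) - a ^ 2 : ℝ) : ℂ) := by
    intro x y
    have e6 : ∀ F, v x F * (starRingEnd ℂ) (v y F) =
        f x F * (starRingEnd ℂ) (f y F) - (a : ℂ) * f x F -
          (a : ℂ) * (starRingEnd ℂ) (f y F) + (a : ℂ) ^ 2 := by
      intro F
      simp only [hv, map_sub, Complex.conj_ofReal]
      ring
    simp_rw [e6]
    have i1 := ffi x y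
    have i2 : Integrable (fun F => (a : ℂ) * f x F) μ := (fi x).const_mul _
    have i3 : Integrable (fun F => (a : ℂ) * (starRingEnd ℂ) (f y F)) μ := (fci y).const_mul _
    have s1 := integral_sub i1 i2
    have s2 := integral_sub (i1.sub i2) i3
    have s3 := integral_add ((i1.sub i2).sub i3) (integrable_const ((a : ℂ) ^ 2))
    simp only [Pi.sub_apply] at s2 s3
    rw [s3, s2, s1, integral_const_mul, integral_const_mul, fcorr, fmean, integral_conj, fmean,
      Complex.conj_ofReal]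
    simp only [integral_const, probReal_univ, one_smul]
    push_cast
    ring
  have hδ := hil (hgL.toLp g) (fun x => (hvL x).toLp (v x))
    ((∫ F, (starRingEnd ℂ) (h F) * eJ τ F ∂μ) - (a : ℂ) * ∫ F, (starRingEnd ℂ) (g F) ∂μ)
    (fun s => ∏ i, KK (c i) (τ i) s - a ^ 2) ?_ ?_ ?_
  · rw [sub_eq_zero] at hδ
    rw [hδ, e3, e5]
  · intro x
    rw [L2.inner_def]
    have e7 : ∫ F, inner ℂ ((hgL.toLp g) F) (((hvL x).toLp (v x)) F) ∂μ =
        ∫ F, v x F * (starRingEnd ℂ) (g F) ∂μ := by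
      refine integral_congr_ae ?_
      filter_upwards [hgL.coeFn_toLp, (hvL x).coeFn_toLp] with F h1 h2
      rw [h1, h2, RCLike.inner_apply]
    rw [e7]
    have e8 : ∀ F, v x F * (starRingEnd ℂ) (g F) =
        f x F * (starRingEnd ℂ) (g F) - (a : ℂ) * (starRingEnd ℂ) (g F) := by
      intro F
      simp only [hv]
      ring
    simp_rw [e8]
    rw [integral_sub (hgf x) (hgi.const_mul _), e1, integral_const_mul]
  · intro x y
    rw [L2.inner_def]
    have e7 : ∫ F, inner ℂ (((hvL y).toLp (v y)) F) (((hvL x).toLp (v x)) F) ∂μ =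
        ∫ F, v x F * (starRingEnd ℂ) (v y F) ∂μ := by
      refine integral_congr_ae ?_
      filter_upwards [(hvL y).coeFn_toLp, (hvL x).coeFn_toLp] with F h1 h2
      rw [h1, h2, RCLike.inner_apply]
    rw [e7]
    exact vcorr x y
  · intro s hs
    have h1 : Tendsto (fun R : ℝ => ∏ i, KK (c i) (τ i) (R * s)) atTop
        (𝓝 (∏ i, aa (c i) (τ i) ^ 2)) :=
      tendsto_finsetProd _ fun i _ => KK_lim (c i) (τ i) s hs
    have h2 := h1.sub_const (a ^ 2)
    rw [Finset.prod_pow, ← ha, sub_self] at h2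
    exact h2

end Pool.Agent.H703.SG
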